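import Mathlib
import Pool.Agent.Lib.MP_3f01e7_al.Affine

set_option autoImplicit false

/-!
# (T1) versus (T2) for continuous association schemes
-/

namespace Pool.Agent.Results.MP_3f01e7_al.TransferDichotomy

open Pool.Agent.Lib.MP_3f01e7_al

universe u v

/-- **Main theorem.** Let `(X, D, K)` be a continuous association scheme with (T1). Then (T2)
holds if and only if the hypergroup `D` is unimodular; in particular, if `D` is commutative then
(T2) holds (for all choices of the measures, up to a constant). On the other hand there is a
(non commutative) continuous association scheme with (T1) but not (T2). -/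
theorem result :
    (∀ (X : Type u) (D : Type v) [TopologicalSpace X] [MeasurableSpace X] [BorelSpace X]
      [LocallyCompactSpace X] [T2Space X] [SecondCountableTopology X] [Nonempty X]
      [TopologicalSpace D] [MeasurableSpace D] [BorelSpace D]
      [LocallyCompactSpace D] [T2Space D] [SecondCountableTopology D] (C : CAS X D),
      C.T1 → (C.T2 ↔ C.H.IsUnimodular) ∧ (C.H.IsCommutative → C.T2 ∧ C.T2All)) ∧
    (∃ C : CAS (ℝ × ℝ) (ℝ × ℝ), C.T1 ∧ ¬ C.T2) := by
  refine ⟨?_, affCAS, affCAS_T1, affCAS_not_T2⟩
  intro X D _ _ _ _ _ _ _ _ _ _ _ _ _ C hT1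
  exact ⟨C.T2_iff_unimodular hT1, fun hcomm => C.T2_of_commutative hT1 hcomm⟩

end Pool.Agent.Results.MP_3f01e7_al.TransferDichotomy
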